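import Pool.Agent.H73.PHS.Stmts
import Pool.Agent.H79.TC.Osg
import Pool.Agent.H4.TC.Mon

/-!
# Row LIM of the board `phs`: pointwise convergence of bounded holomorphic maps
-/

set_option autoImplicit false

open Set Filter Topology MeasureTheory Metric

namespace Pool.PHS

theorem LIM_thm : LIMStmt := by
  intro n U l f g M hl hU hf hM hlim
  have hloc : TendstoLocallyUniformlyOn f g l U := by
    apply tendstoLocallyUniformlyOn_of_forall_exists_nhds
    intro x hx
    obtain ⟨r, hr, hrU⟩ := Metric.nhds_basis_closedBall.mem_iff.1 (hU.mem_nhds hx)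
    have hM0 : 0 ≤ M := (norm_nonneg _).trans (hM 0 x hx)
    have hr2 : 0 < r / 2 := by linarith
    have hsub : ∀ y ∈ ball x (r / 2), ball y (r / 2) ⊆ U := by
      intro y hy z hz
      apply hrU
      rw [mem_ball] at hy hz
      rw [mem_closedBall]
      linarith [dist_triangle z y x]
    have hS : closedBall x (r / 4) ⊆ ball x (r / 2) :=
      closedBall_subset_ball (by linarith)
    have hder : ∀ k, ∀ y ∈ ball x (r / 2), ‖fderiv ℂ (f k) y‖ ≤ 2 * M / (r / 2) := by
      intro k y hy
      exact Pool.Agent.H63.TC.osg_norm_fderiv_le hr2 ((hf k).mono (hsub y hy))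
        (fun z hz => hM k z (hsub y hy hz))
    have hdiff : ∀ k, ∀ y ∈ ball x (r / 2), DifferentiableAt ℂ (f k) y := fun k y hy =>
      (hf k).differentiableAt (hU.mem_nhds (hsub y hy (mem_ball_self hr2)))
    refine ⟨closedBall x (r / 4), mem_nhdsWithin_of_mem_nhds
      (closedBall_mem_nhds x (by linarith)), ?_⟩
    refine Pool.Agent.H63.TC.mon_aux1 (C := 2 * M / (r / 2)) (isCompact_closedBall _ _)
      (by positivity) ?_ ?_
    · intro k y hy z hz
      rw [dist_eq_norm, dist_eq_norm]
      exact (convex_ball x (r / 2)).norm_image_sub_le_of_norm_fderiv_le (hdiff k) (hder k)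
        (hS hz) (hS hy)
    · intro y hy
      exact hlim y (hsub y (hS hy) (mem_ball_self hr2))
  exact ⟨Pool.Agent.H63.TC.osg_limit hU (Eventually.of_forall hf) hloc, hloc⟩

end Pool.PHS
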